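import Pool.Agent.T9h79.Sing.Wall

/-!
# Piece (E): the last vector

Author: helper79.
-/

set_option autoImplicit false

open Module

namespace Pool.Agent.T9h79.Sing

open Pool.Agent.T9h78.Sing

universe u v

section
variable {F : Type u} {V : Type v} [Field F] [AddCommGroup V] [Module F V] [FiniteDimensional F V]

theorem fiber_card [Fintype F] (X : V →ₗ[F] V →ₗ[F] F) (hX : ∀ x, (∀ y, X x y = 0) → x = 0) (m : ℕ)
    (hm : finrank F V = m + 1) (w : Fin m → V) (hw : Good (fun x y => X x y) w) :
    Nat.card {v : V // (∀ a, X (w a) v = 0) ∧ X v v ≠ 0} = Fintype.card F - 1 := by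
  classical
  have hli := li_of_good hw
  have hfs : finrank F (Submodule.span F (Set.range w)) = m := by
    rw [finrank_span_eq_card hli, Fintype.card_fin]
  let Φ : V →ₗ[F] (Fin m → F) := LinearMap.pi fun a => X (w a)
  have hΦ : ∀ v, v ∈ LinearMap.ker Φ ↔ ∀ a, X (w a) v = 0 := by
    intro v
    rw [LinearMap.mem_ker]
    exact ⟨fun h a => congrFun h a, fun h => funext h⟩
  have hdis : Disjoint (LinearMap.ker Φ) (Submodule.span F (Set.range w)) := by
    rw [Submodule.disjoint_def]
    intro v hv hs
    rw [hΦ] at hv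
    obtain ⟨g, rfl⟩ := (Submodule.mem_span_range_iff_exists_fun F).1 hs
    have hg : ∀ i, g i = 0 := by
      intro i
      induction i using WellFoundedLT.induction with
      | _ i ih =>
        have h1 := hv i
        rw [map_sum, Finset.sum_eq_single i] at h1
        · rw [map_smul, smul_eq_mul] at h1
          exact (mul_eq_zero.1 h1).resolve_right (hw.2 i)
        · intro j _ hj
          rcases lt_or_gt_of_ne hj with h | h
          · rw [ih j h, zero_smul, map_zero]
          · rw [map_smul, smul_eq_mul, show X (w i) (w j) = 0 from hw.1 i j h, mul_zero]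
        · intro h
          exact absurd (Finset.mem_univ i) h
    simp [hg]
  have hk : finrank F (LinearMap.ker Φ) = 1 := by
    have h1 := LinearMap.finrank_range_add_finrank_ker Φ
    have h2 : finrank F (LinearMap.range Φ) ≤ m := by
      have := Submodule.finrank_le (LinearMap.range Φ)
      rwa [finrank_fin_fun] at this
    have h3 := Submodule.finrank_add_finrank_le_of_disjoint hdis
    rw [hfs] at h3
    omega
  have hright : ∀ v, (∀ x, X x v = 0) → v = 0 := by
    intro v hv
    have hinj : Function.Injective X := by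
      rw [← LinearMap.ker_eq_bot, LinearMap.ker_eq_bot']
      intro x hx
      exact hX x fun y => by rw [hx]; rfl
    have hsurj : Function.Surjective X := by
      have : finrank F V = finrank F (Module.Dual F V) := (Subspace.dual_finrank_eq).symm
      exact (LinearMap.injective_iff_surjective_of_finrank_eq_finrank this).1 hinj
    rw [← Module.forall_dual_apply_eq_zero_iff F]
    intro f
    obtain ⟨x, rfl⟩ := hsurj f
    exact hv x
  have htop : LinearMap.ker Φ ⊔ Submodule.span F (Set.range w) = ⊤ := by
    apply Submodule.eq_top_of_disjoint _ _ _ hdis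
    rw [hk, hfs, hm, add_comm]
  have hne : ∀ v ∈ LinearMap.ker Φ, v ≠ 0 → X v v ≠ 0 := by
    intro v hv hv0 h0
    apply hv0
    apply hright
    intro x
    have hx : x ∈ LinearMap.ker Φ ⊔ Submodule.span F (Set.range w) := by rw [htop]; trivial
    obtain ⟨k, hk', s, hs, rfl⟩ := Submodule.mem_sup.1 hx
    have h1 : X k v = 0 := by
      have h2 := (finrank_eq_one_iff_of_nonzero' (⟨v, hv⟩ : LinearMap.ker Φ) (by
        intro h
        exact hv0 (congrArg Subtype.val h))).1 hk ⟨k, hk'⟩
      obtain ⟨c, hc⟩ := h2
      have h3 : c • v = k := congrArg Subtype.val hc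
      rw [← h3, map_smul, LinearMap.smul_apply, h0, smul_zero]
    have h2 : X s v = 0 := by
      obtain ⟨g, rfl⟩ := (Submodule.mem_span_range_iff_exists_fun F).1 hs
      rw [map_sum, LinearMap.sum_apply]
      refine Finset.sum_eq_zero fun i _ => ?_
      rw [map_smul, LinearMap.smul_apply, (hΦ v).1 hv i, smul_zero]
    rw [map_add, LinearMap.add_apply, h1, h2, add_zero]
  let e : {v : V // (∀ a, X (w a) v = 0) ∧ X v v ≠ 0} ≃ {k : LinearMap.ker Φ // k ≠ 0} :=
    { toFun := fun v => ⟨⟨v.1, (hΦ v.1).2 v.2.1⟩, by
        intro h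
        apply v.2.2
        have h1 : v.1 = 0 := congrArg Subtype.val h
        rw [h1]; simp⟩
      invFun := fun k => ⟨k.1.1, (hΦ k.1.1).1 k.1.2, hne k.1.1 k.1.2 (by
        intro h
        exact k.2 (Subtype.ext h))⟩
      left_inv := fun v => rfl
      right_inv := fun k => rfl }
  have : Finite V := Module.finite_of_finite F
  let _ : Fintype (LinearMap.ker Φ) := Fintype.ofFinite _
  rw [Nat.card_congr e, Nat.card_eq_fintype_card, Fintype.card_subtype_compl,
    Fintype.card_subtype_eq, Module.card_eq_pow_finrank (K := F) (V := LinearMap.ker Φ), hk, pow_one]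

end

theorem stLast : StLast.{u} := by
  intro F V _ _ _ _ _ X hX m hm
  have : Finite V := Module.finite_of_finite F
  let G1 := {w : Fin (m + 1) → V // Good (fun x y => X x y) w}
  let G0 := {w : Fin m → V // Good (fun x y => X x y) w}
  let e : G1 ≃ Σ w : G0, {v : V // (∀ a, X (w.1 a) v = 0) ∧ X v v ≠ 0} :=
    { toFun := fun w => ⟨⟨fun i => w.1 i.castSucc,
        ⟨fun a b hab => w.2.1 _ _ (Fin.castSucc_lt_castSucc_iff.2 hab), fun a => w.2.2 _⟩⟩,
        ⟨w.1 (Fin.last m), fun a => w.2.1 _ _ (Fin.castSucc_lt_last a), w.2.2 _⟩⟩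
      invFun := fun p => ⟨Fin.snoc p.1.1 p.2.1, by
        refine ⟨?_, ?_⟩
        · intro a b
          refine Fin.lastCases ?_ (fun b => ?_) b
          · intro ha
            obtain ⟨a', rfl⟩ : ∃ a', a = Fin.castSucc a' := ⟨a.castLT ha, rfl⟩
            rw [Fin.snoc_castSucc (α := fun _ => V), Fin.snoc_last (α := fun _ => V)]
            exact p.2.2.1 a'
          · intro ha
            obtain ⟨a', rfl⟩ : ∃ a', a = Fin.castSucc a' :=
              ⟨a.castLT (ha.trans (Fin.castSucc_lt_last b)), rfl⟩
            rw [Fin.snoc_castSucc (α := fun _ => V), Fin.snoc_castSucc (α := fun _ => V)]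
            exact p.1.2.1 _ _ (Fin.castSucc_lt_castSucc_iff.1 ha)
        · intro a
          refine Fin.lastCases ?_ (fun a => ?_) a
          · rw [Fin.snoc_last (α := fun _ => V)]
            exact p.2.2.2
          · rw [Fin.snoc_castSucc (α := fun _ => V)]
            exact p.1.2.2 a⟩
      left_inv := by
        intro w
        apply Subtype.ext
        funext i
        refine Fin.lastCases ?_ (fun i => ?_) i
        · exact Fin.snoc_last (α := fun _ => V) _ _
        · exact Fin.snoc_castSucc (α := fun _ => V) _ _ _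
      right_inv := by
        rintro ⟨⟨w, hw⟩, ⟨v, hv⟩⟩
        have h1 : (fun i : Fin m => (Fin.snoc w v : Fin (m + 1) → V) i.castSucc) = w := by
          funext i
          exact Fin.snoc_castSucc (α := fun _ => V) _ _ _
        have h2 : (Fin.snoc w v : Fin (m + 1) → V) (Fin.last m) = v :=
          Fin.snoc_last (α := fun _ => V) _ _
        refine Sigma.ext (Subtype.ext h1) ?_
        simp only []
        have : ∀ (w' : Fin m → V) (v' : V)
            (hv' : (∀ a, X (w' a) v' = 0) ∧ X v' v' ≠ 0), w' = w → v' = v →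
            HEq (⟨v', hv'⟩ : {v : V // (∀ a, X (w' a) v = 0) ∧ X v v ≠ 0})
              (⟨v, hv⟩ : {v : V // (∀ a, X (w a) v = 0) ∧ X v v ≠ 0}) := by
          rintro w' v' hv' rfl rfl
          rfl
        exact this _ _ _ h1 h2 }
  let _ : Fintype G0 := Fintype.ofFinite _
  have : ∀ w : G0, Finite {v : V // (∀ a, X (w.1 a) v = 0) ∧ X v v ≠ 0} := fun w => inferInstance
  show Nat.card G1 = (Fintype.card F - 1) * Nat.card G0
  rw [Nat.card_congr e, Nat.card_sigma]
  rw [Finset.sum_congr rfl fun w _ => fiber_card X hX m hm w.1 w.2]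
  rw [Finset.sum_const, Finset.card_univ, Nat.card_eq_fintype_card, smul_eq_mul, mul_comm]

end Pool.Agent.T9h79.Sing
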