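import Pool.Agent.T9h79.Sing.Wall

/-!
# Pieces (W1) and (W2)

Author: helper79.
-/

set_option autoImplicit false

open Module

namespace Pool.Agent.T9h79.Sing

open Pool.Agent.T9h78.Sing

universe u

theorem stWallSp : StWallSp.{u} := by
  intro F V _ _ _ _ _ B X c hB hn hc hfix hX
  have hε : ∀ x y, B y x = (-1) * B x y := by
    intro x y
    have h := hB (x + y)
    simp only [map_add, LinearMap.add_apply] at h
    rw [hB x, hB y] at h
    linear_combination h
  refine wall_count (N := finrank F V) rfl (ε := -1) (by simp) hε hn hc hfix hX (SpG B)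
    (fun t ht => ht) ?_
  intro v t hv ht x y
  rw [ht, ht]
  simp only [map_sub, map_smul, LinearMap.sub_apply, LinearMap.smul_apply, smul_eq_mul]
  rw [hε y v, hB v]
  ring

theorem stWallO : StWallO.{u} := by
  intro F V _ _ _ _ _ Q X c hn hc hfix hX
  let B : V →ₗ[F] V →ₗ[F] F := QuadraticMap.polarBilin Q
  have hB : ∀ x y, B x y = QuadraticMap.polar Q x y := fun x y => rfl
  have hiso : ∀ t : V ≃ₗ[F] V, (∀ x, Q (t x) = Q x) → ∀ x y, B (t x) (t y) = B x y := by
    intro t ht x y
    rw [hB, hB, QuadraticMap.polar, QuadraticMap.polar, ← map_add, ht, ht, ht]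
  have hsub : ∀ x y, Q (x - y) = Q x + Q y - QuadraticMap.polar Q x y := by
    intro x y
    have h := QuadraticMap.map_add Q x (-y)
    rw [QuadraticMap.map_neg, QuadraticMap.polar_neg_right] at h
    rw [sub_eq_add_neg, h]
    ring
  have hXQ : ∀ v, X v v = Q v := by
    intro v
    obtain ⟨y, rfl⟩ := one_sub_surj hfix v
    rw [hX, hsub, QuadraticMap.polar_sub_right, QuadraticMap.polar_self, hc y]
    ring
  refine wall_count (N := finrank F V) rfl (B := B) (ε := 1) one_ne_zero
    (fun x y => by rw [one_mul, hB, hB, QuadraticMap.polar_comm]) hn (hiso c hc) hfix hX (OG Q)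
    (fun t ht => hiso t ht) ?_
  intro v t hv ht x
  rw [ht, hsub, QuadraticMap.map_smul, QuadraticMap.polar_smul_right, ← hB]
  rw [hXQ] at hv ⊢
  simp only [smul_eq_mul]
  field_simp
  ring

end Pool.Agent.T9h79.Sing
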