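import Pool.Agent.T9h78.Sing.Spec

/-!
# Factorizations into reflections and the Wall form

Author: helper79.
-/

set_option autoImplicit false

open Module

namespace Pool.Agent.T9h79.Sing

open Pool.Agent.T9h78.Sing

universe u v

section
variable {F : Type u} {V : Type v} [Field F] [AddCommGroup V] [Module F V]

/-- the product of maps `x ↦ x - φ_i(x) v_i` -/
theorem prod_formula : ∀ (N : ℕ) (φ : Fin N → V →ₗ[F] F) (v : Fin N → V) (t : Fin N → (V ≃ₗ[F] V)),
    (∀ i x, t i x = x - φ i x • v i) → ∀ x, ∃ a : Fin N → F,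
      (List.ofFn t).prod x = x - ∑ i, a i • v i ∧
      ∀ i, φ i x = a i + ∑ j, (if i < j then φ i (v j) * a j else 0) := by
  intro N
  induction N with
  | zero =>
    intro φ v t ht x
    refine ⟨fun i => i.elim0, by simp, fun i => i.elim0⟩
  | succ N ih =>
    intro φ v t ht x
    obtain ⟨a, ha, hb⟩ := ih (fun i => φ i.succ) (fun i => v i.succ) (fun i => t i.succ)
      (fun i x => ht i.succ x) x
    set y : V := x - ∑ i, a i • v i.succ with hy
    refine ⟨Fin.cons (φ 0 y) a, ?_, ?_⟩
    · rw [List.ofFn_succ, List.prod_cons, LinearEquiv.mul_apply, ha, ht, Fin.sum_univ_succ]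
      simp only [Fin.cons_zero, Fin.cons_succ]
      rw [hy]
      abel
    · intro i
      refine Fin.cases ?_ (fun i => ?_) i
      · rw [Fin.sum_univ_succ]
        simp only [Fin.cons_zero, Fin.cons_succ, lt_self_iff_false, if_false, Fin.succ_pos, if_true,
          zero_add]
        rw [hy, map_sub, map_sum]
        have : ∑ j, φ 0 (v j.succ) * a j = ∑ j, φ 0 (a j • v j.succ) := by
          refine Finset.sum_congr rfl fun j _ => ?_
          rw [map_smul, smul_eq_mul, mul_comm]
        rw [this]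
        ring
      · rw [Fin.sum_univ_succ]
        simp only [Fin.cons_succ, Fin.not_lt_zero, if_false, Fin.succ_lt_succ_iff, zero_add]
        exact hb i

theorem tri_unique {N : ℕ} (M : Fin N → Fin N → F) (a b : Fin N → F)
    (h : ∀ i, a i + ∑ j, (if i < j then M i j * a j else 0) =
      b i + ∑ j, (if i < j then M i j * b j else 0)) : a = b := by
  have key : ∀ i : Fin N, a i = b i := by
    intro i
    induction i using WellFoundedGT.induction with
    | _ i ih =>
      have h1 := h i
      have h2 : ∑ j, (if i < j then M i j * a j else 0) = ∑ j, (if i < j then M i j * b j else 0) := by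
        refine Finset.sum_congr rfl fun j _ => ?_
        by_cases hij : i < j
        · rw [if_pos hij, if_pos hij, ih j hij]
        · rw [if_neg hij, if_neg hij]
      rw [h2] at h1
      exact add_right_cancel h1
  exact funext key

theorem li_of_good {X : V →ₗ[F] V →ₗ[F] F} {N : ℕ} {w : Fin N → V}
    (hw : Good (fun x y => X x y) w) : LinearIndependent F w := by
  rw [Fintype.linearIndependent_iff]
  intro g hg i
  induction i using WellFoundedGT.induction with
  | _ i ih =>
    have h1 : X (∑ j, g j • w j) (w i) = 0 := by rw [hg]; simp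
    rw [map_sum, LinearMap.sum_apply] at h1
    rw [Finset.sum_eq_single i] at h1
    · rw [map_smul, LinearMap.smul_apply, smul_eq_mul] at h1
      exact (mul_eq_zero.1 h1).resolve_right (hw.2 i)
    · intro j _ hj
      rcases lt_or_gt_of_ne hj with h | h
      · rw [map_smul, LinearMap.smul_apply, smul_eq_mul, show X (w j) (w i) = 0 from hw.1 j i h, mul_zero]
      · rw [ih j h, zero_smul, map_zero, LinearMap.zero_apply]
    · intro h
      exact absurd (Finset.mem_univ i) h

end

section
variable {F : Type u} {V : Type v} [Field F] [AddCommGroup V] [Module F V] [FiniteDimensional F V]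
  {B X : V →ₗ[F] V →ₗ[F] F} {c : V ≃ₗ[F] V} {ε : F}

theorem one_sub_surj (hfix : ∀ x, c x = x → x = 0) (y : V) : ∃ x, x - c x = y := by
  have hinj : Function.Injective ((LinearMap.id - (c : V →ₗ[F] V) : V →ₗ[F] V)) := by
    rw [← LinearMap.ker_eq_bot, LinearMap.ker_eq_bot']
    intro x hx
    apply hfix
    have : x - c x = 0 := hx
    exact (sub_eq_zero.1 this).symm
  obtain ⟨x, hx⟩ := (LinearMap.injective_iff_surjective.1 hinj) y
  exact ⟨x, hx⟩

theorem wall_id (hε : ∀ x y, B y x = ε * B x y) (hc : ∀ x y, B (c x) (c y) = B x y)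
    (hfix : ∀ x, c x = x → x = 0) (hX : ∀ x y, X (x - c x) y = B x y) (w v : V) :
    B w v = X w v + ε * X v w := by
  obtain ⟨x, rfl⟩ := one_sub_surj hfix w
  obtain ⟨y, rfl⟩ := one_sub_surj hfix v
  rw [hX, hX, ← hε]
  simp only [map_sub, LinearMap.sub_apply]
  rw [hc]
  ring

theorem refl_struct (hn : ∀ x, (∀ y, B x y = 0) → x = 0) (hε : ∀ x y, B y x = ε * B x y)
    (t : V ≃ₗ[F] V) (ht : ∀ x y, B (t x) (t y) = B x y) (hr : IsRefl t) :
    ∃ (κ : F) (v : V), κ ≠ 0 ∧ v ≠ 0 ∧ ∀ x, t x = x - (κ * B x v) • v := by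
  obtain ⟨hne, H, hH, hfix⟩ := hr
  have hu : ∃ u, t u ≠ u := by
    by_contra hcon
    push Not at hcon
    exact hne (LinearEquiv.ext hcon)
  obtain ⟨u, hu⟩ := hu
  obtain ⟨v, hv⟩ : ∃ v, v = u - t u := ⟨_, rfl⟩
  have hv0 : v ≠ 0 := by rw [hv]; exact sub_ne_zero.2 (Ne.symm hu)
  have hle : H ≤ LinearMap.ker (B.flip v) := by
    intro x hx
    rw [LinearMap.mem_ker, LinearMap.flip_apply, hv, map_sub]
    have h1 := ht x u
    rw [hfix x hx] at h1
    rw [h1, sub_self]
  have hf0 : B.flip v ≠ 0 := by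
    intro h0
    apply hv0
    apply hn
    intro y
    rw [hε y v]
    have : B y v = 0 := by
      have := LinearMap.congr_fun h0 y
      simpa using this
    rw [this, mul_zero]
  have hK := Module.Dual.finrank_ker_add_one_of_ne_zero (f := B.flip v) hf0
  have hHK : H = LinearMap.ker (B.flip v) := Submodule.eq_of_le_of_finrank_eq hle (by omega)
  have hBu : B u v ≠ 0 := by
    intro h0
    apply hu
    apply hfix
    rw [hHK, LinearMap.mem_ker, LinearMap.flip_apply]
    exact h0
  refine ⟨(B u v)⁻¹, v, inv_ne_zero hBu, hv0, ?_⟩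
  intro x
  have h1 : x - ((B u v)⁻¹ * B x v) • u ∈ H := by
    rw [hHK, LinearMap.mem_ker, LinearMap.flip_apply, map_sub, map_smul, LinearMap.sub_apply,
      LinearMap.smul_apply, smul_eq_mul]
    field_simp
    ring
  have h2 := hfix _ h1
  rw [map_sub, map_smul] at h2
  have h3 : t x = x - ((B u v)⁻¹ * B x v) • u + ((B u v)⁻¹ * B x v) • t u := by
    rw [← h2]; abel
  rw [h3, hv, smul_sub]
  abel

theorem gram_of_prod {N : ℕ} (hN : finrank F V = N) (hfix : ∀ x, c x = x → x = 0)
    (hX : ∀ x y, X (x - c x) y = B x y) (κ : Fin N → F) (v : Fin N → V) (t : Fin N → (V ≃ₗ[F] V))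
    (ht : ∀ i x, t i x = x - (κ i * B x (v i)) • v i) (hprod : (List.ofFn t).prod = c) (i j : Fin N) :
    κ i * X (v j) (v i) = (if i = j then 1 else 0) + if i < j then κ i * B (v j) (v i) else 0 := by
  have hP := prod_formula N (fun i => κ i • B.flip (v i)) v t (by
    intro i x
    rw [ht]
    simp)
  rw [hprod] at hP
  have hspan : ⊤ ≤ Submodule.span F (Set.range v) := by
    intro y _
    obtain ⟨x, hx⟩ := one_sub_surj hfix y
    obtain ⟨a, ha, -⟩ := hP x
    have h1 : y = ∑ i, a i • v i := by
      rw [← hx, ha]; abel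
    rw [h1]
    exact Submodule.sum_mem _ fun i _ => Submodule.smul_mem _ _ (Submodule.subset_span ⟨i, rfl⟩)
  have hli : LinearIndependent F v :=
    linearIndependent_of_top_le_span_of_card_eq_finrank hspan (by simp [hN])
  obtain ⟨x, hx⟩ := one_sub_surj hfix (v j)
  obtain ⟨a, ha, hb⟩ := hP x
  have h1 : ∑ i, a i • v i = ∑ i, (Pi.single j (1 : F) : Fin N → F) i • v i := by
    have h2 : ∑ i, a i • v i = v j := by
      rw [← hx, ha]; abel
    rw [h2, Finset.sum_eq_single j]
    · simp
    · intro b _ hb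
      simp [hb]
    · intro h; exact absurd (Finset.mem_univ j) h
  have h2 : a = Pi.single j 1 := by
    have h3 := Fintype.linearIndependent_iff.1 hli (fun i => a i - (Pi.single j (1 : F) : Fin N → F) i) (by
      simp only [sub_smul, Finset.sum_sub_distrib]
      rw [h1, sub_self])
    funext i
    exact sub_eq_zero.1 (h3 i)
  have h3 := hb i
  rw [h2] at h3
  simp only [LinearMap.smul_apply, LinearMap.flip_apply, smul_eq_mul] at h3
  rw [← hX x, hx] at h3
  rw [h3]
  congr 1
  · rw [Pi.single_apply]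
  · rw [Finset.sum_eq_single j]
    · simp
    · intro b _ hb
      simp [hb]
    · intro h; exact absurd (Finset.mem_univ j) h

theorem prod_of_good {N : ℕ} (hN : finrank F V = N) (hε : ∀ x y, B y x = ε * B x y)
    (hc : ∀ x y, B (c x) (c y) = B x y) (hfix : ∀ x, c x = x → x = 0)
    (hX : ∀ x y, X (x - c x) y = B x y) (w : Fin N → V) (hw : Good (fun x y => X x y) w)
    (t : Fin N → (V ≃ₗ[F] V))
    (ht : ∀ i x, t i x = x - ((X (w i) (w i))⁻¹ * B x (w i)) • w i) : (List.ofFn t).prod = c := by
  have hP := prod_formula N (fun i => (X (w i) (w i))⁻¹ • B.flip (w i)) w t (by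
    intro i x
    rw [ht]
    simp)
  have hli := li_of_good hw
  have hspan : Submodule.span F (Set.range w) = ⊤ :=
    hli.span_eq_top_of_card_eq_finrank' (by simp [hN])
  apply LinearEquiv.ext
  intro x
  obtain ⟨a, ha, hb⟩ := hP x
  have hmem : x - c x ∈ Submodule.span F (Set.range w) := by rw [hspan]; trivial
  obtain ⟨α, hα⟩ := (Submodule.mem_span_range_iff_exists_fun F).1 hmem
  have hα' : ∀ i, ((X (w i) (w i))⁻¹ • B.flip (w i)) x =
      α i + ∑ j, (if i < j then ((X (w i) (w i))⁻¹ • B.flip (w i)) (w j) * α j else 0) := by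
    intro i
    simp only [LinearMap.smul_apply, LinearMap.flip_apply, smul_eq_mul]
    rw [← hX x, ← hα, map_sum, LinearMap.sum_apply, Finset.mul_sum]
    have h1 : ∀ j, (X (w i) (w i))⁻¹ * (X (α j • w j)) (w i) =
        (if j = i then α i else 0) +
          (if i < j then (X (w i) (w i))⁻¹ * B (w j) (w i) * α j else 0) := by
      intro j
      rw [map_smul, LinearMap.smul_apply, smul_eq_mul]
      rcases lt_trichotomy i j with h | h | h
      · rw [if_neg h.ne', if_pos h, wall_id hε hc hfix hX (w j) (w i),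
          show X (w i) (w j) = 0 from hw.1 i j h]
        ring
      · subst h
        rw [if_pos rfl, if_neg (lt_irrefl _), add_zero]
        have := hw.2 i
        field_simp
      · rw [if_neg h.ne, if_neg h.asymm, show X (w j) (w i) = 0 from hw.1 j i h]
        ring
    rw [Finset.sum_congr rfl fun j _ => h1 j, Finset.sum_add_distrib]
    simp
  have hab : a = α := by
    refine tri_unique (fun i j => ((X (w i) (w i))⁻¹ • B.flip (w i)) (w j)) a α fun i => ?_
    rw [← hb i, ← hα' i]
  rw [ha, hab, hα]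
  abel

open Classical in
/-- the count -/
theorem wall_count [Fintype F] {N : ℕ} (hN : finrank F V = N) (hε0 : ε ≠ 0)
    (hε : ∀ x y, B y x = ε * B x y) (hn : ∀ x, (∀ y, B x y = 0) → x = 0)
    (hc : ∀ x y, B (c x) (c y) = B x y) (hfix : ∀ x, c x = x → x = 0)
    (hX : ∀ x y, X (x - c x) y = B x y) (G : Set (V ≃ₗ[F] V))
    (hG1 : ∀ t ∈ G, ∀ x y, B (t x) (t y) = B x y)
    (hG2 : ∀ (v : V) (t : V ≃ₗ[F] V), X v v ≠ 0 → (∀ x, t x = x - ((X v v)⁻¹ * B x v) • v) → t ∈ G) :
    Nat.card (Facts G N c) * (Fintype.card F - 1) ^ N =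
      Nat.card {w : Fin N → V // Good (fun x y => X x y) w} := by
  have hs : ∀ t : V ≃ₗ[F] V, ∃ (κ : F) (v : V), (t ∈ G ∧ IsRefl t) → κ ≠ 0 ∧ v ≠ 0 ∧
      ∀ x, t x = x - (κ * B x v) • v := by
    intro t
    by_cases h : t ∈ G ∧ IsRefl t
    · obtain ⟨κ, v, h1⟩ := refl_struct hn hε t (hG1 t h.1) h.2
      exact ⟨κ, v, fun _ => h1⟩
    · exact ⟨0, 0, fun h' => absurd h' h⟩
  choose κ v hκv using hs
  have hgram : ∀ T : Facts G N c, ∀ i j, κ (T.1 i) * X (v (T.1 j)) (v (T.1 i)) =
      (if i = j then 1 else 0) + if i < j then κ (T.1 i) * B (v (T.1 j)) (v (T.1 i)) else 0 :=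
    fun T => gram_of_prod hN hfix hX (fun i => κ (T.1 i)) (fun i => v (T.1 i)) T.1
      (fun i x => (hκv _ (T.2.1 i)).2.2 x) T.2.2
  have hdiag : ∀ T : Facts G N c, ∀ i, κ (T.1 i) * X (v (T.1 i)) (v (T.1 i)) = 1 := by
    intro T i
    rw [hgram]
    simp
  have hgood : ∀ (T : Facts G N c) (l : Fin N → Fˣ),
      Good (fun x y => X x y) (fun i => (l i : F) • v (T.1 i)) := by
    intro T l
    refine ⟨?_, ?_⟩
    · intro a b hab
      have h1 := hgram T b a
      rw [if_neg hab.ne', if_neg hab.asymm, add_zero] at h1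
      have h2 := (mul_eq_zero.1 h1).resolve_left (hκv _ (T.2.1 b)).1
      simp only [map_smul, LinearMap.smul_apply, smul_eq_mul]
      rw [h2]
      ring
    · intro a
      have h1 := hdiag T a
      have h2 : X (v (T.1 a)) (v (T.1 a)) ≠ 0 := by
        intro h0
        rw [h0, mul_zero] at h1
        exact zero_ne_one h1
      simp only [map_smul, LinearMap.smul_apply, smul_eq_mul]
      exact mul_ne_zero (l a).ne_zero (mul_ne_zero (l a).ne_zero h2)
  let Θ : Facts G N c × (Fin N → Fˣ) → {w : Fin N → V // Good (fun x y => X x y) w} :=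
    fun p => ⟨fun i => (p.2 i : F) • v (p.1.1 i), hgood p.1 p.2⟩
  have hT : ∀ (p : Facts G N c × (Fin N → Fˣ)) (i : Fin N) (x : V),
      p.1.1 i x = x - ((X ((Θ p).1 i) ((Θ p).1 i))⁻¹ * B x ((Θ p).1 i)) • (Θ p).1 i := by
    intro p i x
    rw [(hκv _ (p.1.2.1 i)).2.2 x]
    have h1 := hdiag p.1 i
    have h2 : X (v (p.1.1 i)) (v (p.1.1 i)) ≠ 0 := by
      intro h0
      rw [h0, mul_zero] at h1
      exact zero_ne_one h1
    have h3 : κ (p.1.1 i) = (X (v (p.1.1 i)) (v (p.1.1 i)))⁻¹ := eq_inv_of_mul_eq_one_left h1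
    have h4 : (p.2 i : F) ≠ 0 := (p.2 i).ne_zero
    show _ = x - ((X ((p.2 i : F) • v (p.1.1 i)) ((p.2 i : F) • v (p.1.1 i)))⁻¹ *
      B x ((p.2 i : F) • v (p.1.1 i))) • ((p.2 i : F) • v (p.1.1 i))
    rw [h3, smul_smul]
    congr 2
    simp only [map_smul, LinearMap.smul_apply, smul_eq_mul]
    field_simp
  have hinj : Function.Injective Θ := by
    intro p p' h
    have h1 : p.1 = p'.1 := by
      apply Subtype.ext
      funext i
      apply LinearEquiv.ext
      intro x
      rw [hT p, hT p', h]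
    have h2 : p.2 = p'.2 := by
      funext i
      have h3 : (Θ p).1 i = (Θ p').1 i := by rw [h]
      have h4 : (p.2 i : F) • v (p.1.1 i) = (p'.2 i : F) • v (p'.1.1 i) := h3
      rw [← h1] at h4
      apply Units.ext
      exact smul_left_injective F (hκv _ (p.1.2.1 i)).2.1 h4
    exact Prod.ext h1 h2
  have hsurj : Function.Surjective Θ := by
    rintro ⟨w, hw⟩
    -- the reflections
    have hex : ∀ i, ∃ t : V ≃ₗ[F] V, ∀ x, t x = x - ((X (w i) (w i))⁻¹ * B x (w i)) • w i := by
      intro i
      have hXi : X (w i) (w i) ≠ 0 := hw.2 i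
      have hBB : B (w i) (w i) = (1 + ε) * X (w i) (w i) := by
        rw [wall_id hε hc hfix hX]; ring
      let f : V →ₗ[F] V := LinearMap.id - ((X (w i) (w i))⁻¹ • B.flip (w i)).smulRight (w i)
      have hf : ∀ x, f x = x - ((X (w i) (w i))⁻¹ * B x (w i)) • w i := by
        intro x
        simp [f]
      have hinj : Function.Injective f := by
        rw [← LinearMap.ker_eq_bot, LinearMap.ker_eq_bot']
        intro x hx
        rw [hf] at hx
        have h1 : x = ((X (w i) (w i))⁻¹ * B x (w i)) • w i := sub_eq_zero.1 hx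
        have h2 : B x (w i) = ((X (w i) (w i))⁻¹ * B x (w i)) * B (w i) (w i) := by
          conv_lhs => rw [h1]
          rw [map_smul, LinearMap.smul_apply, smul_eq_mul]
        rw [hBB] at h2
        have h3 : B x (w i) * ε = 0 := by
          have h4 : (X (w i) (w i))⁻¹ * B x (w i) * ((1 + ε) * X (w i) (w i)) = B x (w i) * (1 + ε) := by
            field_simp
          rw [h4] at h2
          linear_combination -h2
        have h5 : B x (w i) = 0 := (mul_eq_zero.1 h3).resolve_right hε0
        rw [h1, h5, mul_zero, zero_smul]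
      exact ⟨LinearEquiv.ofInjectiveEndo f hinj, fun x => hf x⟩
    choose t ht using hex
    have htG : ∀ i, t i ∈ G := fun i => hG2 (w i) (t i) (hw.2 i) (ht i)
    have hwi : ∀ i, w i ≠ 0 := by
      intro i h0
      apply hw.2 i
      show X (w i) (w i) = 0
      rw [h0]; simp
    have hflip : ∀ i, B.flip (w i) ≠ 0 := by
      intro i h0
      apply hwi i
      apply hn
      intro y
      rw [hε y (w i)]
      have : B y (w i) = 0 := by
        have := LinearMap.congr_fun h0 y
        simpa using this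
      rw [this, mul_zero]
    have hBex : ∀ i, ∃ x, B x (w i) ≠ 0 := by
      intro i
      by_contra hcon
      push Not at hcon
      exact hflip i (LinearMap.ext hcon)
    have hrefl : ∀ i, IsRefl (t i) := by
      intro i
      refine ⟨?_, LinearMap.ker (B.flip (w i)), Module.Dual.finrank_ker_add_one_of_ne_zero (hflip i), ?_⟩
      · intro h1
        obtain ⟨x, hx⟩ := hBex i
        have h2 := ht i x
        rw [h1] at h2
        have h3 : ((X (w i) (w i))⁻¹ * B x (w i)) • w i = 0 := by
          have h4 : (1 : V ≃ₗ[F] V) x = x := rfl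
          rw [h4] at h2
          exact sub_eq_self.1 h2.symm
        rcases smul_eq_zero.1 h3 with h | h
        · rcases mul_eq_zero.1 h with h | h
          · exact hw.2 i (inv_eq_zero.1 h)
          · exact hx h
        · exact hwi i h
      · intro x hx
        rw [LinearMap.mem_ker, LinearMap.flip_apply] at hx
        rw [ht, hx, mul_zero, zero_smul, sub_zero]
    have hprod := prod_of_good hN hε hc hfix hX w hw t ht
    let T : Facts G N c := ⟨t, fun i => ⟨htG i, hrefl i⟩, hprod⟩
    have hl : ∀ i, ∃ l : Fˣ, (l : F) • v (t i) = w i := by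
      intro i
      obtain ⟨hκ, hv, hx⟩ := hκv (t i) ⟨htG i, hrefl i⟩
      obtain ⟨x, hBx⟩ := hBex i
      have h1 := ht i x
      rw [hx x] at h1
      have h2 : (κ (t i) * B x (v (t i))) • v (t i) = ((X (w i) (w i))⁻¹ * B x (w i)) • w i :=
        sub_right_injective h1
      have hd : (X (w i) (w i))⁻¹ * B x (w i) ≠ 0 := mul_ne_zero (inv_ne_zero (hw.2 i)) hBx
      have h3 : w i = (((X (w i) (w i))⁻¹ * B x (w i))⁻¹ * (κ (t i) * B x (v (t i)))) • v (t i) := by
        rw [mul_smul, h2, smul_smul, inv_mul_cancel₀ hd, one_smul]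
      have h4 : ((X (w i) (w i))⁻¹ * B x (w i))⁻¹ * (κ (t i) * B x (v (t i))) ≠ 0 := by
        intro h0
        rw [h0, zero_smul] at h3
        exact hwi i h3
      exact ⟨Units.mk0 _ h4, h3.symm⟩
    choose l hl using hl
    refine ⟨(T, l), ?_⟩
    apply Subtype.ext
    funext i
    exact hl i
  have hcard := Nat.card_congr (Equiv.ofBijective Θ ⟨hinj, hsurj⟩)
  rw [← hcard, Nat.card_prod, Nat.card_fun, Nat.card_units, Nat.card_eq_fintype_card (α := F),
    Nat.card_eq_fintype_card (α := Fin N), Fintype.card_fin]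

end

end Pool.Agent.T9h79.Sing
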